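import Pool.Agent.W890.SF.Stm

set_option autoImplicit false

namespace Pool.Agent.W899.SAM

open Pool.Agent.W890.SF Finset

/-- The real comparison of powers. -/
theorem pow_cmp (k : ℕ) (η : ℝ) (hη : 0 < η) (n : ℝ)
    (hn : ((k : ℝ) - 1) ^ 2 * (1 + η) / η ≤ n) (hk : 1 ≤ k) (hnk : (k : ℝ) ≤ n) :
    n ^ (k - 1) ≤ (1 + η) * (n - k + 1) ^ (k - 1) := by
  have hk1 : (1 : ℝ) ≤ k := by exact_mod_cast hk
  have hn0 : 0 < n := by linarith
  have hc : ((k - 1 : ℕ) : ℝ) = (k : ℝ) - 1 := by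
    rw [Nat.cast_sub hk, Nat.cast_one]
  have hb := one_add_mul_le_pow (a := -(((k : ℝ) - 1) / n)) (by
    have : ((k : ℝ) - 1) / n ≤ 1 := by
      rw [div_le_one hn0]
      linarith
    linarith) (k - 1)
  have e1 : (1 + -(((k : ℝ) - 1) / n)) = (n - k + 1) / n := by
    field_simp
    ring
  rw [e1, hc, div_pow] at hb
  have hp : 0 < n ^ (k - 1) := pow_pos hn0 _
  have h2 : (1 : ℝ) ≤ (1 + η) * (1 + ((k : ℝ) - 1) * -(((k : ℝ) - 1) / n)) := by
    rw [div_le_iff₀ hη] at hn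
    have e2 : (1 + η) * (1 + ((k : ℝ) - 1) * -(((k : ℝ) - 1) / n)) =
        (1 + η) - ((k : ℝ) - 1) ^ 2 * (1 + η) / n := by
      field_simp
      ring
    rw [e2]
    have h3 : ((k : ℝ) - 1) ^ 2 * (1 + η) / n ≤ η := by
      rw [div_le_iff₀ hn0]
      linarith
    linarith
  have h4 : (1 : ℝ) ≤ (1 + η) * ((n - k + 1) ^ (k - 1) / n ^ (k - 1)) :=
    h2.trans (mul_le_mul_of_nonneg_left hb (by linarith))
  rw [← mul_div_assoc, le_div_iff₀ hp, one_mul] at h4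
  exact h4

/-- Comparison of the binomial coefficients. -/
theorem choose_cmp (k : ℕ) (hk : 3 ≤ k) (η : ℝ) (hη : 0 < η) (n : ℕ) (hkn : k ∣ n) (hnk : k ≤ n)
    (hn : ((k : ℝ) - 1) ^ 2 * (1 + η) / η ≤ n) :
    (((n - n / k).choose (k - 1) : ℕ) : ℝ) ≤
      ((1 - 1 / (k : ℝ)) ^ (k - 1) + η) * (((n - 1).choose (k - 1) : ℕ) : ℝ) := by
  obtain ⟨m, rfl⟩ := hkn
  have hk0 : 0 < k := by omega
  have hkr : (0 : ℝ) < k := by exact_mod_cast hk0
  rw [Nat.mul_div_cancel_left m hk0]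
  have hf : (0 : ℝ) < ((k - 1).factorial : ℝ) := by exact_mod_cast Nat.factorial_pos _
  -- upper bound
  have u1 : ((((k * m - m).choose (k - 1) : ℕ) : ℝ)) * ((k - 1).factorial : ℝ) ≤
      ((1 - 1 / (k : ℝ)) * ((k * m : ℕ) : ℝ)) ^ (k - 1) := by
    have h1 : (k * m - m).choose (k - 1) * (k - 1).factorial ≤ (k * m - m) ^ (k - 1) := by
      rw [mul_comm ((k * m - m).choose (k - 1)), ← Nat.descFactorial_eq_factorial_mul_choose]
      exact Nat.descFactorial_le_pow _ _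
    have h2 : ((k * m - m : ℕ) : ℝ) = (1 - 1 / (k : ℝ)) * ((k * m : ℕ) : ℝ) := by
      rw [Nat.cast_sub (Nat.le_mul_of_pos_left m hk0)]
      push_cast
      field_simp
    rw [← h2]
    exact_mod_cast h1
  -- lower bound
  have l1 : (((k * m : ℕ) : ℝ) - k + 1) ^ (k - 1) ≤
      (((k * m - 1).choose (k - 1) : ℕ) : ℝ) * ((k - 1).factorial : ℝ) := by
    have h1 : (k * m - 1 + 1 - (k - 1)) ^ (k - 1) ≤
        (k * m - 1).choose (k - 1) * (k - 1).factorial := by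
      rw [mul_comm ((k * m - 1).choose (k - 1)), ← Nat.descFactorial_eq_factorial_mul_choose]
      exact Nat.pow_sub_le_descFactorial _ _
    have h2 : ((k * m - 1 + 1 - (k - 1) : ℕ) : ℝ) = ((k * m : ℕ) : ℝ) - k + 1 := by
      have h3 : k * m - 1 + 1 - (k - 1) + k = k * m + 1 := by omega
      have h4 : ((k * m - 1 + 1 - (k - 1) : ℕ) : ℝ) + k = ((k * m : ℕ) : ℝ) + 1 := by
        exact_mod_cast h3
      linarith
    rw [← h2]
    exact_mod_cast h1
  have hq0 : (0 : ℝ) ≤ 1 - 1 / (k : ℝ) := by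
    have : 1 / (k : ℝ) ≤ 1 := by
      rw [div_le_one hkr]
      exact_mod_cast hk0
    linarith
  have hq1 : (1 - 1 / (k : ℝ)) ≤ 1 := by
    have : 0 < 1 / (k : ℝ) := by positivity
    linarith
  have hqp : (1 - 1 / (k : ℝ)) ^ (k - 1) ≤ 1 := pow_le_one₀ hq0 hq1
  have hqp0 : 0 ≤ (1 - 1 / (k : ℝ)) ^ (k - 1) := pow_nonneg hq0 _
  have hc := pow_cmp k η hη ((k * m : ℕ) : ℝ) hn (by omega) (by exact_mod_cast hnk)
  have hB0 : (0 : ℝ) ≤ (((k * m : ℕ) : ℝ) - k + 1) ^ (k - 1) := by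
    apply pow_nonneg
    have : (k : ℝ) ≤ ((k * m : ℕ) : ℝ) := by exact_mod_cast hnk
    linarith
  have key : ((((k * m - m).choose (k - 1) : ℕ) : ℝ)) * ((k - 1).factorial : ℝ) ≤
      (((1 - 1 / (k : ℝ)) ^ (k - 1) + η) * (((k * m - 1).choose (k - 1) : ℕ) : ℝ)) *
        ((k - 1).factorial : ℝ) := by
    refine u1.trans ?_
    rw [mul_pow]
    have h5 : (1 - 1 / (k : ℝ)) ^ (k - 1) * ((k * m : ℕ) : ℝ) ^ (k - 1) ≤
        ((1 - 1 / (k : ℝ)) ^ (k - 1) + η) * (((k * m : ℕ) : ℝ) - k + 1) ^ (k - 1) := by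
      refine (mul_le_mul_of_nonneg_left hc hqp0).trans ?_
      rw [← mul_assoc]
      refine mul_le_mul_of_nonneg_right ?_ hB0
      nlinarith
    refine h5.trans ?_
    rw [mul_assoc]
    exact mul_le_mul_of_nonneg_left l1 (by linarith)
  exact le_of_mul_le_mul_right key hf

theorem pmu (h1 : S_NEP) (h2 : S_EXP) : S_PMU := by
  intro k hk
  obtain ⟨γ, hγ, n1, hE⟩ := h2 k hk
  obtain ⟨η, hη, n2, hN⟩ := h1 k hk γ hγ
  obtain ⟨n3, hn3⟩ := exists_nat_ge (((k : ℝ) - 1) ^ 2 * (1 + η) / η)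
  refine ⟨n1 + n2 + n3 + k, ?_⟩
  intro n hn hkn H hU hdeg
  by_cases hx : Extr k γ H
  · exact hE n (by omega) hkn H hU hdeg hx
  · refine hN n (by omega) hkn H hU ?_ hx
    intro v
    have hc := choose_cmp k hk η hη n hkn (by omega) (hn3.trans (by
      have : n3 ≤ n := by omega
      exact_mod_cast this))
    have hd := hdeg v
    have hd2 : (n - 1).choose (k - 1) ≤ dg H v + (n - n / k).choose (k - 1) := by omega
    have hd3 : (((n - 1).choose (k - 1) : ℕ) : ℝ) ≤ (dg H v : ℝ) +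
        (((n - n / k).choose (k - 1) : ℕ) : ℝ) := by exact_mod_cast hd2
    rw [Fintype.card_fin]
    linarith

end Pool.Agent.W899.SAM
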